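import Pool.Agent.Helper3_DA.Cut

/-!
Triangle-free graphs of maximum degree at most 3 which become bipartite after the deletion of an induced
matching have a good 5-edge-colouring, that is, they map to the Clebsch graph.
-/

set_option autoImplicit false

namespace Pool.Agent.Results.MP_da6743_co.InducedMatching

/-- Let `G` be a finite triangle-free graph of maximum degree at most `3` whose vertices are divided into
two parts (given by `R`) so that the edges inside the parts form an induced matching: whenever `ab` and
`cd` are such edges and `a = c` or `ac` is an edge, the two edges are equal. Then `G` has a colouring of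
the edges with `5` colours such that, for each colour, the edges not of that colour form a bipartite
graph. -/
theorem result {V : Type*} [Finite V] (G : SimpleGraph V) (htri : G.CliqueFree 3)
    (hdeg : ∀ v, (G.neighborSet v).ncard ≤ 3) (R : V → Bool)
    (hind : ∀ a b c d, G.Adj a b → R a = R b → G.Adj c d → R c = R d → (a = c ∨ G.Adj a c) →
      s(a, b) = s(c, d)) :
    ∃ c : Sym2 V → Fin 5, ∀ i : Fin 5,
      (SimpleGraph.fromEdgeSet {e | e ∈ G.edgeSet ∧ c e ≠ i}).Colorable 2 :=
  H3DA.good_of_induced G htri hdeg R hind

end Pool.Agent.Results.MP_da6743_co.InducedMatching
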